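import Pool.Agent.Helper91K1.PQ.Main

/-!
# Close pairs of primes with a prescribed middle, for almost every quadratic polynomial

Q1 of MP_e94e4b_nt asks for an integer `0 ≤ j ≤ N` such that `m - j` and `m + j` are both prime, where `m = N ^ 2 + N + 1`
(`j = |k - N|`).  Here `m` is the integer part of `β N ^ 2 + γ N + g(N)`, for almost all
pairs `(β, γ)`, `β > 0`, and an arbitrary function `g(N) = o(N ^ 2)`: for a positive lower density of the `N` there are such
`j`, even `j ≤ log² N`, and for every `H(N)` between `log² N` and `N ^ (1 - κ)` the right order of them up to `H(N)`.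

Proof: a block of `X ^ (1 - κ)` consecutive integers of size `X ^ 2` with the right order of primes contains a positive
proportion of integers `m` with this property (Cauchy–Schwarz and an upper bound sieve), and few blocks do not have the right
order of primes (starting library, `Pool.Agent.Q278.KT.mainp_half`). After thinning the set of these `m` has the same number of
elements in every block, and then the events for different `N` are almost independent (variance). Joint work of helper91 with
helpers 11, 15, 18, 20, 31, 64, 98.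
-/

set_option autoImplicit false

open Filter Topology MeasureTheory

namespace Pool.Agent.Results.MP_e94e4b_nt.PositiveDensityQuadratics

/-- The number of the integers `j` with `1 ≤ j ≤ H` such that `m - j` and `m + j` are both prime. -/
def pairs (m H : ℕ) : ℕ := ((Finset.Icc 1 H).filter (fun j => (m - j).Prime ∧ (m + j).Prime)).card

/-- There are `c > 0` and `κ` in `(0, 1)` such that for all `H : ℕ → ℕ` with `log² N ≤ H(N) ≤ N ^ (1 - κ)` for all large `N` and
all real `g(N) = o(N ^ 2)`, for almost all pairs `(β, γ)` of real numbers with `β > 0`: for all large `X`, at least `c X` of the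
positive integers `N ≤ X` have the property that, with `m = ⌊β N ^ 2 + γ N + g(N)⌋`, both `m - j` and `m + j` are prime for at
least `c H(N) / log² N` of the integers `1 ≤ j ≤ H(N)`. -/
theorem result : ∃ c κ : ℝ, 0 < c ∧ 0 < κ ∧ κ < 1 ∧ ∀ (H : ℕ → ℕ) (g : ℕ → ℝ),
    (∀ᶠ N : ℕ in atTop, Real.log N ^ 2 ≤ H N ∧ (H N : ℝ) ≤ (N : ℝ) ^ (1 - κ)) →
    Tendsto (fun N : ℕ => g N / (N : ℝ) ^ 2) atTop (𝓝 0) →
    ∀ᵐ x : ℝ × ℝ, 0 < x.1 → ∀ᶠ X : ℕ in atTop, c * X ≤ {N : ℕ | 1 ≤ N ∧ N ≤ X ∧
      c * H N / Real.log N ^ 2 ≤ pairs ⌊x.1 * (N : ℝ) ^ 2 + x.2 * N + g N⌋₊ (H N)}.ncard :=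
  Pool.Agent.Helper91K1.PQ.main

end Pool.Agent.Results.MP_e94e4b_nt.PositiveDensityQuadratics
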