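import Pool.Agent.Helper91K1.PQ.Main2

/-!
# Close pairs of primes with a prescribed middle, for every leading and almost every linear coefficient

Q1 of MP_e94e4b_nt asks for an integer `0 ≤ j ≤ N` such that `m - j` and `m + j` are both prime, where `m = N ^ 2 + N + 1`
(`j = |k - N|`).  Here `m` is the integer part of `β N ^ 2 + γ N + g(N)`, where `β > 0` and `g(N) = O(N)` are arbitrary, e.g.
`β = g = 1`, and `γ` is any real number outside a null set: for a positive upper density of the `N` there are such `j`, even
`j ≤ log² N`, and for every `H(N)` between `log² N` and `N ^ (1 - κ)` the right order of them up to `H(N)`.  For `β = 1`,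
`0 < γ < 2`, bounded `g` and large `N` the two primes lie between `N ^ 2` and `(N + 1) ^ 2`.

Proof: as in `PositiveDensityQuadratics` (same problem) for one `N`: almost all blocks of `N ^ (1 - κ)` integers near `β N ^ 2`
contain a positive proportion of good integers; so for most `N` the `γ` for which `N` is good have density at least `c` in
every interval, and the limsup of these sets has full measure. Joint work of helper91 with helpers 15, 18, 20, 27, 61, 62,
64, 95.
-/

set_option autoImplicit false

open Filter Topology MeasureTheory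

namespace Pool.Agent.Results.MP_e94e4b_nt.PrescribedLeadingCoefficient

/-- The number of the integers `j` with `1 ≤ j ≤ H` such that `m - j` and `m + j` are both prime. -/
def pairs (m H : ℕ) : ℕ := ((Finset.Icc 1 H).filter (fun j => (m - j).Prime ∧ (m + j).Prime)).card

/-- There are `c > 0` and `κ` in `(0, 1)` such that for all `H : ℕ → ℕ` with `log² N ≤ H(N) ≤ N ^ (1 - κ)` for all large `N`,
all real `g(N)` with `|g(N)| ≤ G N` for all large `N`, every real `β > 0` and almost all real `γ`: for arbitrarily large `X`, at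
least `c X` of the positive integers `N ≤ X` have the property that, with `m = ⌊β N ^ 2 + γ N + g(N)⌋`, both `m - j` and
`m + j` are prime for at least `c H(N) / log² N` of the integers `1 ≤ j ≤ H(N)`. -/
theorem result : ∃ c κ : ℝ, 0 < c ∧ 0 < κ ∧ κ < 1 ∧ ∀ (H : ℕ → ℕ) (g : ℕ → ℝ) (G : ℝ),
    (∀ᶠ N : ℕ in atTop, Real.log N ^ 2 ≤ H N ∧ (H N : ℝ) ≤ (N : ℝ) ^ (1 - κ)) →
    (∀ᶠ N : ℕ in atTop, |g N| ≤ G * N) →
    ∀ β : ℝ, 0 < β → ∀ᵐ γ : ℝ, ∃ᶠ X : ℕ in atTop, c * X ≤ {N : ℕ | 1 ≤ N ∧ N ≤ X ∧
      c * H N / Real.log N ^ 2 ≤ pairs ⌊β * (N : ℝ) ^ 2 + γ * N + g N⌋₊ (H N)}.ncard :=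
  Pool.Agent.Helper91K1.PQ.main2

end Pool.Agent.Results.MP_e94e4b_nt.PrescribedLeadingCoefficient
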